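import Pool.Agent.Helper55.T5.Inst
import Pool.Agent.Helper11.T5.Facts
import Pool.Agent.Helper39.SL.Reidx
import Pool.Agent.Helper39.SL.Union

/-!
# T5a (MP_12a1af), NEAR block, line N5: the inner windows over `prD`

The windows of the two states below the static level `t` are towers of the levels
`t, ..., t + h - 1` of `prD m l' l t h F0` over the windows `Bw` of the level `t + h`; the latter
depend only on the keys of the blocks of the window (level `0`) and of the static levels `≥ t + h`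
(key levels `≥ t + h + 2`).
-/

set_option autoImplicit false

namespace Pool.Agent.Helper39.T5

open Finset Pool.Agent.Helper27.T4 Pool.Agent.Helper27.T5
open Pool.Agent.Helper5.ET hiding Key Mk
open Pool.Agent.Helper22.HW Pool.Agent.Helper22.SL Pool.Agent.Helper30.T5 Pool.Agent.Helper57.T5
open Pool.Agent.Helper11.T5 Pool.Agent.Helper50.T5 Pool.Agent.Helper42.T5.Pr
open Pool.Agent.Helper39.SL Pool.Agent.Helper55.T5

variable {m k l l' t h F0 : ℕ}

/-! ## codes -/

/-- the codes of the levels of `prD` are the static codes of the upper state -/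
theorem cU_prD (hP : (prD m l' l t h F0).Ok (Mk m)) (w : Key → ℕ) (r : ℕ) (y : Fin 3 → ℕ) :
    cU hP w r y = cs m l (t + r) w y := by
  have h1 : ∀ S : Side (ps (t + r)) Key, (prD m l' l t h F0).S r = S →
      cU hP w r y = S.cd (ps_prime (t + r)) (ps_inj (t + r)) w y := by
    rintro S rfl
    rfl
  exact h1 _ (prD_S r)

/-- the same for the lower state -/
theorem cU'_prD (hP : (prD m l' l t h F0).Ok (Mk m)) (he : era l' = era l) (w : Key → ℕ) (r : ℕ)
    (y : Fin 3 → ℕ) : cU' hP w r y = cs m l' (t + r) w y := by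
  have h1 : ∀ S : Side (ps (t + r)) Key, (prD m l' l t h F0).S' r = S →
      cU' hP w r y = S.cd (ps_prime (t + r)) (ps_inj (t + r)) w y := by
    rintro S rfl
    rfl
  exact h1 _ (prD_S' he r)

/-! ## the windows as towers -/

/-- **upper state** -/
theorem rep_prD (hP : (prD m l' l t h F0).Ok (Mk m)) (hb : 10 * m ≤ la (era l)) (hk : k + 1 < m)
    (hth : t + h ≤ k) (w : Key → ℕ) :
    Rep (prD m l' l t h F0) (cU hP w) (Nj l) (Bw m k l (t + h) w) (Zw m k l t w) := by
  intro u hu
  obtain ⟨y, hy, u', hu', he⟩ := Zw_split h hth hu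
  obtain ⟨b, hb', hub⟩ := Zw_eq_Bw hb hk hth hu'
  refine ⟨y, fun r hr => hy r hr, b, hb', ?_⟩
  rw [he, hub]
  congr 1
  · exact Finset.sum_congr rfl (fun r _ => (cU_prD hP w r (y r)).symm)
  · have h1 : (prD m l' l t h F0).L (prD m l' l t h F0).h = LL (QQ m (era l)) (t + h) := prD_L h
    rw [h1]

/-- **lower state** -/
theorem rep_prD' (hP : (prD m l' l t h F0).Ok (Mk m)) (hb : 10 * m ≤ la (era l)) (hk : k + 1 < m)
    (he : era l' = era l) (hth : t + h ≤ k) (w : Key → ℕ) :
    Rep (prD m l' l t h F0) (cU' hP w) (Nj l') (Bw m k l' (t + h) w) (Zw m k l' t w) := by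
  intro u hu
  obtain ⟨y, hy, u', hu', hs⟩ := Zw_split h hth hu
  obtain ⟨b, hb', hub⟩ := Zw_eq_Bw (by rw [he]; exact hb) hk hth hu'
  refine ⟨y, fun r hr => ?_, b, hb', ?_⟩
  · have h2 := hy r hr
    rw [he] at h2
    exact h2
  rw [hs, hub]
  congr 1
  · exact Finset.sum_congr rfl (fun r _ => (cU'_prD hP he w r (y r)).symm)
  · have h1 : (prD m l' l t h F0).L (prD m l' l t h F0).h = LL (QQ m (era l)) (t + h) := prD_L h
    rw [h1, he]

/-! ## the windows depend only on the deep keys -/

/-- the keys of the blocks of the window and of the static levels `≥ s` -/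
noncomputable def keysD (m k l s : ℕ) : Finset Key :=
  (keysOf m k l).filter (fun q => q.2.1 = 0 ∨ s + 2 ≤ q.2.1)

theorem keysD_sub (m k l s : ℕ) : keysD m k l s ⊆ keysOf m k l := filter_subset _ _

theorem keysD_anti {m k l s s' : ℕ} (h : s ≤ s') : keysD m k l s' ⊆ keysD m k l s := by
  intro q hq
  unfold keysD at hq ⊢
  rw [mem_filter] at hq ⊢
  exact ⟨hq.1, by omega⟩

theorem bkey_mem_keysD (s : ℕ) {v : ℕ} (hv : v < vhi m k l) :
    bkey l (Pool.Agent.Helper50.T5.lev v) (v / 2 ^ Pool.Agent.Helper50.T5.lev v) ∈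
      keysD m k l s := by
  unfold keysD
  rw [mem_filter]
  exact ⟨bkey_mem hv, Or.inl rfl⟩

theorem key_mem_keysD {s t : ℕ} (hs : s ≤ t) (ht : t < k) {y : Fin 3 → ℕ}
    (hy : y ∈ Ys m (era l) t) (f : Fin 3) : (Ss m l t).key f y ∈ keysD m k l s := by
  unfold keysD
  rw [mem_filter]
  refine ⟨key_mem_static ht hy f, Or.inr ?_⟩
  show s + 2 ≤ t + 2
  omega

/-- the code of a level depends only on the keys of the level -/
theorem cs_congr {w w' : Key → ℕ} {y : Fin 3 → ℕ}
    (h : ∀ f, w ((Ss m l t).key f y) = w' ((Ss m l t).key f y)) :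
    cs m l t w y = cs m l t w' y := by
  have h1 : (fun i => Lg (ps t i) ((Ss m l t).e i) (y i) + (Ss m l t).rho w i y) =
      fun i => Lg (ps t i) ((Ss m l t).e i) (y i) + (Ss m l t).rho w' i y := by
    funext i
    unfold Side.rho
    rw [h i]
  unfold cs Side.cd lc
  rw [h1]

theorem Vw_congr {w w' : Key → ℕ} (s : ℕ) (h : ∀ q ∈ keysD m k l s, w q = w' q) :
    Vw m k l w = Vw m k l w' := by
  unfold Vw VW
  refine Finset.filter_congr (fun v hv => ?_)
  rw [mem_Ico] at hv
  simp only
  rw [h _ (bkey_mem_keysD s hv.2)]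

/-- **dependence of the windows** -/
theorem Zw_congr {w w' : Key → ℕ} {s : ℕ} (h : ∀ q ∈ keysD m k l s, w q = w' q) :
    Zw m k l s w = Zw m k l s w' := by
  unfold Zw
  rw [Vw_congr s h]
  refine Finset.image_congr (fun q hq => ?_)
  rw [mem_coe, mem_product, Fintype.mem_piFinset] at hq
  congr 1
  refine Finset.sum_congr rfl (fun i _ => cs_congr (fun f => h _ ?_))
  exact key_mem_keysD (by omega) (by have := i.2; omega) (hq.1 i) f

theorem Bw_congr {w w' : Key → ℕ} {s : ℕ} (h : ∀ q ∈ keysD m k l s, w q = w' q) :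
    Bw m k l s w = Bw m k l s w' := by
  unfold Bw
  rw [Zw_congr h]

/-! ## the keys of the levels of `prD` are not deep -/

theorem key_not_mem_keysD {s t : ℕ} (hs : t < s) (l2 : ℕ) (f : Fin 3) (y : Fin 3 → ℕ) :
    (Ss m l t).key f y ∉ keysD m k l2 s := by
  unfold keysD
  rw [mem_filter]
  rintro ⟨_, h | h⟩
  · have h1 : t + 2 = 0 := h
    omega
  · have h1 : s + 2 ≤ t + 2 := h
    omega

/-- the deep keys of the pair -/
noncomputable def deep (m k l l' s : ℕ) : Finset Key := keysD m k l s ∪ keysD m k l' s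

/-- hypothesis `hK` of the static block, relative to the deep keys -/
theorem prD_keys_deep (he : era l' = era l) (hk : t + h ≤ k) {K : Finset Key}
    (hK : keysOf m k l ⊆ K) (hK' : keysOf m k l' ⊆ K) :
    ∀ r < (prD m l' l t h F0).h, ∀ i, ∀ y ∈ (prD m l' l t h F0).Y r,
      (prD m l' l t h F0).key r i y ∈ K \ deep m k l l' (t + h) ∧
      (prD m l' l t h F0).key' r i y ∈ K \ deep m k l l' (t + h) := by
  intro r hr i y hy
  have hr' : r < h := hr
  obtain ⟨h1, h2⟩ := prD_keys he hk hK hK' r hr i y hy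
  refine ⟨mem_sdiff.2 ⟨h1, ?_⟩, mem_sdiff.2 ⟨h2, ?_⟩⟩
  · unfold deep
    rw [mem_union, not_or]
    exact ⟨key_not_mem_keysD (l := l) (t := t + r) (by omega) l i y,
      key_not_mem_keysD (l := l) (t := t + r) (by omega) l' i y⟩
  · unfold deep
    rw [mem_union, not_or]
    exact ⟨key_not_mem_keysD (l := l') (t := t + r) (by omega) l i y,
      key_not_mem_keysD (l := l') (t := t + r) (by omega) l' i y⟩

theorem deep_sub {K : Finset Key} {s : ℕ} (hK : keysOf m k l ⊆ K) (hK' : keysOf m k l' ⊆ K) :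
    deep m k l l' s ⊆ K :=
  union_subset ((keysD_sub _ _ _ _).trans hK) ((keysD_sub _ _ _ _).trans hK')

theorem Bw_congr_deep {w w' : Key → ℕ} {s : ℕ} (h : ∀ q ∈ deep m k l l' s, w q = w' q) :
    Bw m k l s w = Bw m k l s w' ∧ Bw m k l' s w = Bw m k l' s w' :=
  ⟨Bw_congr (fun q hq => h q (mem_union_left _ hq)),
    Bw_congr (fun q hq => h q (mem_union_right _ hq))⟩

end Pool.Agent.Helper39.T5
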