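import Pool.Agent.Helper75.T4.Primes

/-!
# T5 (MP_12a1af), block CNT: the number of admissible tuples of primes

Any finite number of families `f` with primes `p f` and exponents `a f`; main families and static
families together.
-/

namespace Pool.Agent.Helper39.T5

open Finset

/-- the admissible values of one family: primes `y`, coprime to `p`, with `y ^ 2 < p ^ a` -/
def T1 (p a : ℕ) : Finset ℕ :=
  (range (p ^ a)).filter (fun y => y.Prime ∧ y.Coprime p ∧ y ^ 2 < p ^ a)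

theorem mem_T1 {p a y : ℕ} : y ∈ T1 p a ↔ y.Prime ∧ y.Coprime p ∧ y ^ 2 < p ^ a := by
  unfold T1
  rw [mem_filter, mem_range]
  constructor
  · rintro ⟨_, h⟩; exact h
  · intro h
    refine ⟨?_, h⟩
    have h1 := h.1.two_le
    nlinarith [h.2.2]

/-- one family, exact logarithm -/
theorem card_T1_ge' {p a : ℕ} (hp : p.Prime) (h14 : 2 ^ 14 ≤ p ^ a) :
    Real.sqrt ((p : ℝ) ^ a) ≤ 48 * ((a : ℝ) * Real.log p) * ((T1 p a).card : ℝ) := by
  have hset : Pool.Agent.Helper75.T4.PX p a ⊆ T1 p a := by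
    intro y hy
    rw [Pool.Agent.Helper75.T4.mem_PX] at hy
    rw [mem_T1]
    exact ⟨hy.1, (Nat.coprime_primes hy.1 hp).2 hy.2.1, hy.2.2⟩
  have h1 := Pool.Agent.Helper75.T4.card_PX_ge p a hp.two_le h14
  have h2 : ((Pool.Agent.Helper75.T4.PX p a).card : ℝ) ≤ ((T1 p a).card : ℝ) := by
    exact_mod_cast card_le_card hset
  refine h1.trans (mul_le_mul_of_nonneg_left h2 ?_)
  have h5 : 0 ≤ Real.log (p : ℝ) := Real.log_natCast_nonneg _
  positivity

theorem log_le_14 {p : ℕ} (h0 : 0 < p) (h : p ≤ 2 ^ 20) : Real.log (p : ℝ) ≤ 14 := by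
  have h1 : (p : ℝ) ≤ (2 : ℝ) ^ (20 : ℕ) := by exact_mod_cast h
  have h0 : (0 : ℝ) < p := by exact_mod_cast h0
  calc Real.log (p : ℝ) ≤ Real.log ((2 : ℝ) ^ (20 : ℕ)) := Real.log_le_log h0 h1
    _ = 20 * Real.log 2 := by rw [Real.log_pow]; norm_num
    _ ≤ 14 := by
      have := Real.log_two_lt_d9
      linarith

/-- one family: `c √(p^a) / l` admissible values, for every `l ≥ a` -/
theorem card_T1_ge {p a l : ℕ} (hp : p.Prime) (h20 : p ≤ 2 ^ 20) (h14 : 2 ^ 14 ≤ p ^ a)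
    (hl0 : 0 < l) (hal : a ≤ l) :
    Real.sqrt ((p : ℝ) ^ a) / (672 * l) ≤ ((T1 p a).card : ℝ) := by
  have hl0 : (0 : ℝ) < l := by exact_mod_cast hl0
  have h1 := card_T1_ge' hp h14
  have h3 : (a : ℝ) * Real.log p ≤ l * 14 := by
    have h4 : (a : ℝ) ≤ l := by exact_mod_cast hal
    have h5 : 0 ≤ Real.log (p : ℝ) := Real.log_natCast_nonneg _
    have h6 := log_le_14 hp.pos h20
    gcongr
  rw [div_le_iff₀ (by positivity)]
  refine h1.trans ?_
  have h7 : (0 : ℝ) ≤ ((T1 p a).card : ℝ) := by positivity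
  calc 48 * ((a : ℝ) * Real.log p) * ((T1 p a).card : ℝ)
      ≤ 48 * (l * 14) * ((T1 p a).card : ℝ) := by gcongr
    _ = ((T1 p a).card : ℝ) * (672 * l) := by ring

/-- admissible tuples -/
def TT {ι : Type*} [Fintype ι] [DecidableEq ι] (p a : ι → ℕ) : Finset (ι → ℕ) :=
  Fintype.piFinset (fun f => T1 (p f) (a f))

/-- **number of admissible tuples** of finitely many families -/
theorem card_TT_ge {ι : Type*} [Fintype ι] [DecidableEq ι] (p a : ι → ℕ) {l : ℕ}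
    (hp : ∀ f, (p f).Prime) (h20 : ∀ f, p f ≤ 2 ^ 20) (h14 : ∀ f, 2 ^ 14 ≤ p f ^ a f)
    (hl0 : 0 < l) (hal : ∀ f, a f ≤ l) :
    Real.sqrt (((∏ f, p f ^ a f : ℕ) : ℝ)) / (672 * (l : ℝ)) ^ Fintype.card ι ≤
      ((TT p a).card : ℝ) := by
  have hl : (0 : ℝ) < l := by exact_mod_cast hl0
  unfold TT
  rw [Fintype.card_piFinset]
  push_cast
  rw [Real.sqrt_prod _ (fun f _ => by positivity), ← Finset.card_univ, ← Finset.prod_const,
    ← Finset.prod_div_distrib]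
  apply Finset.prod_le_prod
  · intro f _
    positivity
  · intro f _
    exact card_T1_ge (hp f) (h20 f) (h14 f) hl0 (hal f)

/-- the same for a set of families given as a finite set (for example an initial segment of `ℕ`) -/
theorem prod_card_ge {κ : Type*} (S : Finset κ) (p a : κ → ℕ) {l : ℕ}
    (hp : ∀ f ∈ S, (p f).Prime) (h20 : ∀ f ∈ S, p f ≤ 2 ^ 20) (h14 : ∀ f ∈ S, 2 ^ 14 ≤ p f ^ a f)
    (hl0 : 0 < l) (hal : ∀ f ∈ S, a f ≤ l) :
    Real.sqrt (((∏ f ∈ S, p f ^ a f : ℕ) : ℝ)) / (672 * (l : ℝ)) ^ S.card ≤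
      ∏ f ∈ S, ((T1 (p f) (a f)).card : ℝ) := by
  have hl : (0 : ℝ) < l := by exact_mod_cast hl0
  push_cast
  rw [Real.sqrt_prod _ (fun f _ => by positivity), ← Finset.prod_const,
    ← Finset.prod_div_distrib]
  apply Finset.prod_le_prod
  · intro f _
    positivity
  · intro f hf
    exact card_T1_ge (hp f hf) (h20 f hf) (h14 f hf) hl0 (hal f hf)

/-! ### the same with a bound for `a log p` (no bound for the prime) -/

/-- one family: only `a log p ≤ 14 l` is needed -/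
theorem card_T1_ge_log {p a l : ℕ} (hp : p.Prime) (h14 : 2 ^ 14 ≤ p ^ a) (hl0 : 0 < l)
    (hal : (a : ℝ) * Real.log p ≤ 14 * l) :
    Real.sqrt ((p : ℝ) ^ a) / (672 * l) ≤ ((T1 p a).card : ℝ) := by
  have hl0 : (0 : ℝ) < l := by exact_mod_cast hl0
  have h1 := card_T1_ge' hp h14
  rw [div_le_iff₀ (by positivity)]
  refine h1.trans ?_
  have h7 : (0 : ℝ) ≤ ((T1 p a).card : ℝ) := by positivity
  calc 48 * ((a : ℝ) * Real.log p) * ((T1 p a).card : ℝ)
      ≤ 48 * (14 * l) * ((T1 p a).card : ℝ) := by gcongr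
    _ = ((T1 p a).card : ℝ) * (672 * l) := by ring

/-- `p ^ a ≤ (10 ^ 6) ^ l` gives the hypothesis of `card_T1_ge_log` -/
theorem mul_log_le {p a l : ℕ} (hp : 0 < p) (h : p ^ a ≤ (10 ^ 6) ^ l) :
    (a : ℝ) * Real.log p ≤ 14 * l := by
  have hp0 : (0 : ℝ) < p := by exact_mod_cast hp
  have h1 : (p : ℝ) ^ a ≤ (10 ^ 6 : ℝ) ^ l := by exact_mod_cast h
  have h2 : Real.log ((p : ℝ) ^ a) ≤ Real.log ((10 ^ 6 : ℝ) ^ l) :=
    Real.log_le_log (by positivity) h1
  rw [Real.log_pow, Real.log_pow] at h2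
  have h3 : Real.log (10 ^ 6 : ℝ) ≤ 14 := by
    have h4 := log_le_14 (p := 10 ^ 6) (by norm_num) (by norm_num)
    have h5 : ((10 ^ 6 : ℕ) : ℝ) = (10 : ℝ) ^ 6 := by norm_num
    rwa [h5] at h4
  have hl : (0 : ℝ) ≤ l := Nat.cast_nonneg _
  calc (a : ℝ) * Real.log p ≤ l * Real.log (10 ^ 6 : ℝ) := h2
    _ ≤ l * 14 := by gcongr
    _ = 14 * l := by ring

/-- **number of admissible tuples**, hypothesis `a log p ≤ 14 l` -/
theorem card_TT_ge_log {ι : Type*} [Fintype ι] [DecidableEq ι] (p a : ι → ℕ) {l : ℕ}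
    (hp : ∀ f, (p f).Prime) (h14 : ∀ f, 2 ^ 14 ≤ p f ^ a f)
    (hl0 : 0 < l) (hal : ∀ f, (a f : ℝ) * Real.log (p f) ≤ 14 * l) :
    Real.sqrt (((∏ f, p f ^ a f : ℕ) : ℝ)) / (672 * (l : ℝ)) ^ Fintype.card ι ≤
      ((TT p a).card : ℝ) := by
  have hl : (0 : ℝ) < l := by exact_mod_cast hl0
  unfold TT
  rw [Fintype.card_piFinset]
  push_cast
  rw [Real.sqrt_prod _ (fun f _ => by positivity), ← Finset.card_univ, ← Finset.prod_const,
    ← Finset.prod_div_distrib]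
  apply Finset.prod_le_prod
  · intro f _
    positivity
  · intro f _
    exact card_T1_ge_log (hp f) (h14 f) hl0 (hal f)

/-- the same for a finite set of families -/
theorem prod_card_ge_log {κ : Type*} (S : Finset κ) (p a : κ → ℕ) {l : ℕ}
    (hp : ∀ f ∈ S, (p f).Prime) (h14 : ∀ f ∈ S, 2 ^ 14 ≤ p f ^ a f)
    (hl0 : 0 < l) (hal : ∀ f ∈ S, (a f : ℝ) * Real.log (p f) ≤ 14 * l) :
    Real.sqrt (((∏ f ∈ S, p f ^ a f : ℕ) : ℝ)) / (672 * (l : ℝ)) ^ S.card ≤
      ∏ f ∈ S, ((T1 (p f) (a f)).card : ℝ) := by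
  have hl : (0 : ℝ) < l := by exact_mod_cast hl0
  push_cast
  rw [Real.sqrt_prod _ (fun f _ => by positivity), ← Finset.prod_const,
    ← Finset.prod_div_distrib]
  apply Finset.prod_le_prod
  · intro f _
    positivity
  · intro f hf
    exact card_T1_ge_log (hp f hf) (h14 f hf) hl0 (hal f hf)

end Pool.Agent.Helper39.T5
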