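import Pool.Agent.Helper22.NEAR.Defs

/-!
# T5a (MP_12a1af), NEAR block, line NE4: the static block for a pair of states, all contexts
-/

set_option autoImplicit false

namespace Pool.Agent.Helper39.T5

open Finset Pool.Agent.Helper27.T4 Pool.Agent.Helper27.T5 Pool.Agent.Helper22.HW
  Pool.Agent.Helper22.SL Pool.Agent.Helper57.T5 Pool.Agent.Helper11.T5 Pool.Agent.Helper63.T5
  Pool.Agent.Helper22.NEAR
open Pool.Agent.Helper5.ET (Nj era)

/-- number of labels, logarithmic form -/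
theorem In_le (j l' l : ℕ) :
    ((In j l' l : ℕ) : ℝ) ≤ Real.exp (2 + ((l - l' : ℕ) : ℝ) * Real.log (pj j) / 2) := by
  have hp : (0 : ℝ) < pj j := by exact_mod_cast pj_pos j
  have hlog : 0 ≤ Real.log (pj j) := by
    have := lam_gt
    have := lam_le_pj j
    linarith
  unfold In
  push_cast
  rw [← Real.exp_log (pow_pos hp ((l - l') / 2)), Real.log_pow]
  apply Real.exp_le_exp.2
  have h1 : (((l - l') / 2 : ℕ) : ℝ) ≤ ((l - l' : ℕ) : ℝ) / 2 := Nat.cast_div_le
  have h2 := mul_le_mul_of_nonneg_right h1 hlog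
  linarith

/-- the leaf of the windows of the level `s` in the form of `sl_union` -/
theorem leaf_Bw_of_Zw {m k l l' s R0 : ℕ} (hb : 10 * m ≤ la (era l)) (he : era l' = era l)
    (hk : k + 1 < m) (hs : s ≤ k) (w : Key → ℕ)
    (h : ∀ n, ((Zw m k l s w ×ˢ Zw m k l' s w).filter (fun q => q.1 + q.2 = n)).card ≤ R0)
    (n : ℕ) : ((Bw m k l s w ×ˢ Bw m k l' s w).filter
      (fun q => Nj l * LL (QQ m (era l)) s * q.1 + Nj l' * LL (QQ m (era l)) s * q.2 = n)).card ≤
      R0 := by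
  have hpos : 0 < Nj l * LL (QQ m (era l)) s :=
    Nat.mul_pos (Pool.Agent.Helper50.ET.Nj_pos l) (LLQ_pos _ _ _)
  have hpos' : 0 < Nj l' * LL (QQ m (era l)) s :=
    Nat.mul_pos (Pool.Agent.Helper50.ET.Nj_pos l') (LLQ_pos _ _ _)
  have hmem : ∀ x, era x = era l → ∀ b ∈ Bw m k x s w,
      Nj x * LL (QQ m (era l)) s * b ∈ Zw m k x s w := by
    intro x hx b hb1
    unfold Bw at hb1
    rw [mem_image] at hb1
    obtain ⟨u, hu, rfl⟩ := hb1
    rw [← hx, Nat.mul_div_cancel' (dvd_Zw (by rw [hx]; exact hb) hk hs hu)]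
    exact hu
  refine le_trans (card_le_card_of_injOn
    (fun q : ℕ × ℕ => (Nj l * LL (QQ m (era l)) s * q.1, Nj l' * LL (QQ m (era l)) s * q.2))
    ?_ ?_) (h n)
  · intro q hq
    simp only [coe_filter, mem_product, Set.mem_ofPred_eq] at hq ⊢
    exact ⟨⟨hmem l rfl _ hq.1.1, hmem l' he _ hq.1.2⟩, hq.2⟩
  · intro q _ q' _ hqq
    simp only [Prod.mk.injEq] at hqq
    exact Prod.ext (Nat.eq_of_mul_eq_mul_left hpos hqq.1) (Nat.eq_of_mul_eq_mul_left hpos' hqq.2)

/-- NE4 [39]: the static block, all contexts -/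
theorem sl_inst {m k j t l' l : ℕ} (h : PD m k j (t + 1) l' l)
    (hc : ef m (t + 1) l' = ef m (t + 1) l) (hL : LateC m k j (cA k 3)) {K : Finset Key}
    (hK : keysOf m k l ⊆ K) (hK' : keysOf m k l' ⊆ K) {R0 n : ℕ} (hn : 1 ≤ n) {δ ε : ℝ}
    (hδ : δ ≤ W m j (sb m k j t l' l + 1)) {A : (Key → ℕ) → Prop}
    (hA : PrG (Mk m) (deep m k l l' (sb m k j t l' l)) A ε)
    (hgood : ∀ w : Key → ℕ, (∀ q, w q < Mk m q) → ¬ A w →
      (∀ c ∈ Jx m j t l' l, PPx m k j t l' l w c ≤ Real.exp (-δ)) ∧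
      ∀ n, ((Zw m k l (sb m k j t l' l) w ×ˢ Zw m k l' (sb m k j t l' l) w).filter
        (fun q => q.1 + q.2 = n)).card ≤ R0) :
    PrG (Mk m) K (fun w => ∃ c ∈ Jx m j t l' l,
      2 * ((n + 1) ^ 2 ^ (4 * hb m k j t l' l) * (Pool.Agent.Helper39.SL.Cd (PN m k j t l' l) * R0))
        < cNx m k j t l' l w c)
      (ε + (Jx m j t l' l).card * ((3 * (hb m k j t l' l : ℝ) + 1) * GG m j (t + 1) *
        Real.exp (-δ) ^ (n + 1))) := by
  have he := h.el
  subst he
  have he' : era l' = era l := h.el'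
  have hkm := h.km
  have hak := h.ak
  have hhk := hh_le (m := m) (k := k) (j := era l) (a := t + 1) (D := l - l') h.ak
  have hsk : t + hb m k (era l) t l' l ≤ k := by
    show t + hh m k (era l) (t + 1) (l - l') ≤ k
    omega
  have hF1 : Nj (ef m (t + 1) l) ∣ FF m l t := dvd_rfl
  have hF2 : FF m l t ∣ 4 * Nj (ef m (t + 1) l) := dvd_mul_left _ _
  have hMt : Mt' (PN m k (era l) t l' l) m k (era l) (t + 1) l' l := h.mtD hF1 hF2
  have hP : (PN m k (era l) t l' l).Ok (Mk m) := h.okD hL.1 hF1 hF2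
  have hFz : (PN m k (era l) t l' l).F 0 = Nj (ef m (t + 1) l) := rfl
  have hin := In_le (era l) l' l
  have hlead := h.lead (i := t + 1) (by omega)
  have hlead' := h.lead' (i := t + 1) (by omega)
  have hlog : 0 ≤ Real.log (pj (era l)) := by
    have := lam_gt
    have := lam_le_pj (era l)
    linarith
  have hyn : 0 ≤ ((l - l' : ℕ) : ℝ) * Real.log (pj (era l)) / 2 :=
    div_nonneg (mul_nonneg (Nat.cast_nonneg _) hlog) (by norm_num)
  have hδ' : δ ≤ W m (era l) (t + 1 + (PN m k (era l) t l' l).h) := by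
    have e1 : t + 1 + (PN m k (era l) t l' l).h = sb m k (era l) t l' l + 1 := by
      show t + 1 + hb m k (era l) t l' l = t + hb m k (era l) t l' l + 1
      omega
    rw [e1]
    exact hδ
  have hcop : ∀ c ∈ Jx m (era l) t l' l, c.2.1.Coprime (pj (era l)) := by
    intro c hcJ
    unfold Jx at hcJ
    exact (mem_filter.1 hcJ).2
  refine Pool.Agent.Helper39.SL.sl_union (P := PN m k (era l) t l' l) hP (Mk_pos m)
    (K0 := deep m k l l' (sb m k (era l) t l' l)) (deep_sub hK hK')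
    (prD_keys_deep he' hsk hK hK')
    (fun w => Bw m k l (sb m k (era l) t l' l) w) (fun w => Bw m k l' (sb m k (era l) t l' l) w)
    (fun w => Zw m k l t w) (fun w => Zw m k l' t w)
    (fun w w' hw => Bw_congr_deep hw)
    (fun w => rep_prD hP h.big (by omega) hsk w)
    (fun w => rep_prD' hP h.big (by omega) he' hsk w)
    (Jx m (era l) t l' l) (fun c => c.2.2.1) (fun c => bm m (era l) t l' * c.2.2.2) clx
    (I := In (era l) l' l) (D := DD m (era l) t l' l) (C1 := 2) (R0 := R0)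
    (Ir := IrD m (era l) (t + 1) l' (In (era l) l' l))
    (pow_pos (pj_pos _) _) (hMt.hF0 h hFz) (fun c _ => dvd_mul_right _ _) ?_ ?_
    (Real.exp_pos _).le ?_ ?_ ?_ (hMt.toMt.hG' h) hA ?_ hn
  · intro c hcJ x
    refine hC1 (pj_pos _) (hcop c hcJ) ?_ x
    exact Nat.pow_le_pow_right (pj_pos _) (by omega)
  · intro c hcJ r hr x
    exact hMt.hIr h hc hFz (hcop c hcJ) _ hr x
  · intro r hr
    refine hMt.toMt.hA h hL ?_ hδ' hr
    refine hin.trans (Real.exp_le_exp.2 ?_)
    linarith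
  · intro r hr hr1
    refine hMt.toMt.hB h hL hδ' hr hr1 ?_ ?_
    · intro hD
      have h1 := IrD_lab1 (m := m) (a := t + 1) (r := r) (by norm_num : (0 : ℝ) ≤ 2) hin hD
      norm_num at h1
      exact h1
    · have h1 := IrD_lab2 (m := m) (j := era l) (a := t + 1) (l' := l') (r := r)
        (CI := 2) (by linarith) hin
      norm_num at h1
      exact h1
  · intro r hr
    exact hMt.toMt.hG h hr
  · intro w hw hnA
    obtain ⟨h1, h2⟩ := hgood w hw hnA
    refine ⟨fun c hcJ => h1 c hcJ, fun n => ?_⟩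
    have h3 := leaf_Bw_of_Zw (m := m) (k := k) h.big he' (by omega) hsk w h2 n
    have e1 : (PN m k (era l) t l' l).L (PN m k (era l) t l' l).h =
        LL (QQ m (era l)) (sb m k (era l) t l' l) :=
      Pool.Agent.Helper55.T5.prD_L (hb m k (era l) t l' l)
    rw [e1]
    exact h3

end Pool.Agent.Helper39.T5
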