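import Pool.Agent.Helper11.T5.Defs
import Pool.Agent.Helper39.ET.CardXX

/-!
# T5a, block CNT: the number of configurations `(x, y_0, ..., y_(k-1))` of a state
-/

set_option autoImplicit false

namespace Pool.Agent.Helper39.T5

open Finset Pool.Agent.Helper5.ET Pool.Agent.Helper27.T4 Pool.Agent.Helper27.T5
open Pool.Agent.Helper30.T5 Pool.Agent.Helper57.T5 Pool.Agent.Helper11.T5

/-- the configurations of the state `l` -/
noncomputable def Cfg (m k l : ℕ) : Finset ((Fin 3 → ℕ) × (Fin k → Fin 3 → ℕ)) :=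
  X1 l ×ˢ Fintype.piFinset (fun t : Fin k => Ys m (era l) t)

theorem card_X1_ge {l : ℕ} (hl : bb 2 < l) :
    Real.sqrt (Nj l) / (672 * (l : ℝ)) ^ 3 ≤ ((X1 l).card : ℝ) := by
  have h := card_TT_ge pr (av l) (l := l) pr_prime
    (fun f => by fin_cases f <;> (simp only [pr]; norm_num))
    (fun f => le_trans (Pool.Agent.Helper39.ET.pr_ge f)
      (Nat.le_self_pow (by have := Pool.Agent.Helper39.ET.cnt_pos f hl; unfold av; omega) _))
    (by omega) (fun f => Pool.Agent.Helper39.ET.cnt_le f l)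
  rw [Fintype.card_fin] at h
  exact h

theorem dg_le {m j i : ℕ} (f : Fin 3) : dg m j i f ≤ W m j (i - 1) := by
  unfold dg
  have h1 : gw f ≤ 3 := by fin_cases f <;> simp [gw]
  have h2 : gw f * (W m j (i - 1) - W m j i) ≤ 3 * W m j (i - 1) :=
    Nat.mul_le_mul h1 (Nat.sub_le _ _)
  omega

theorem W_le_bb (m j i : ℕ) : W m j i ≤ bb j :=
  (Pool.Agent.Helper30.T5.W_anti m j (Nat.zero_le i)).trans (Pool.Agent.Helper30.T5.W_zero_le m j)

/-- late eras: every prime of a static level is at most every modulus of the level -/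
theorem exists_sp_le_Qf (m k : ℕ) (hk : k + 2 ≤ m) : ∃ j0 : ℕ, ∀ j ≥ j0, ∀ i, 2 ≤ i → i ≤ k + 1 →
    ∀ f g : Fin 3, sp (3 * i + f) ≤ Qf m j i g := by
  have hB : ∀ i, i ≤ k + 1 → ∀ f : Fin 3, sp (3 * i + f) ≤ sp (3 * (k + 1) + 3) := by
    intro i hi f
    have := f.2
    exact sp_strictMono.monotone (by omega)
  set B := sp (3 * (k + 1) + 3) with hBdef
  have hm : 0 < m := by omega
  obtain ⟨j0, h0⟩ := exists_million_pow_le_Qf m k hk
  obtain ⟨j1, h1⟩ := exists_mul_W_le (m := m) hm 2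
  obtain ⟨j2, h2⟩ := exists_log_pow_le_W (m := m) hm ((16 * (20000 * B) : ℕ) : ℝ) 0
  obtain ⟨j3, h3⟩ := exists_le_rt (m := m) hm 8
  refine ⟨max j0 (max j1 (max j2 j3)), fun j hj i hi2 hik f g => ?_⟩
  simp only [ge_iff_le, max_le_iff] at hj
  have e1 := h1 j hj.2.1 (i - 1) (by omega)
  have e2 := h2 j hj.2.2.1 (i - 1) (by omega)
  have e3 := h3 j hj.2.2.2
  rw [pow_zero, mul_one] at e2
  have e2' : 16 * (20000 * B) ≤ W m j (i - 1) := by exact_mod_cast e2
  have e4 : i - 1 + 1 = i := by omega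
  rw [e4] at e1
  have e5 := eight_mul_dg (j := j) (i := i) (by omega) e3 g
  have e6 : 1 ≤ gw g := by fin_cases g <;> simp [gw]
  have e7 : 20000 * B ≤ dg m j i g := by
    have : W m j (i - 1) - W m j i ≤ gw g * (W m j (i - 1) - W m j i) :=
      Nat.le_mul_of_pos_left _ (by omega)
    omega
  have e8 := h0 j hj.1 i hi2 hik g B (by omega)
  exact ((hB i hik f).trans (Nat.lt_pow_self (by norm_num : 1 < 10 ^ 6)).le).trans e8

/-- late eras: nothing is lost by the bound `y < QQ` in `Us` -/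
theorem exists_Us_eq (m k : ℕ) (hk : k + 2 ≤ m) : ∃ j0 : ℕ, ∀ j ≥ j0, ∀ t < k, ∀ f : Fin 3,
    Us m j t f = Pool.Agent.Helper73.T5.sU (ps t f) (es m j t f) := by
  obtain ⟨j0, h0⟩ := exists_sp_le_Qf m k hk
  refine ⟨j0, fun j hj t ht f => ?_⟩
  unfold Us
  refine filter_true_of_mem (fun y hy => ?_)
  have h1 := (Pool.Agent.Helper73.T5.sfam_sU (ps_prime t f) (ps_ne2 t f) (es m j t f)).lt y hy
  have h2 := h0 j hj (t + 2) (by omega) (by omega) f
  refine h1.trans_le ?_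
  have h3 : ps t f ^ (es m j t f + 1) = Qf m j (t + 2) f * sp (3 * (t + 2) + f) := pow_succ _ _
  have h4 : QQ m j t = Qf m j (t + 2) 0 * Qf m j (t + 2) 1 * Qf m j (t + 2) 2 := by
    unfold QQ Qs
    exact Fin.prod_univ_three _
  rw [h3, h4]
  have p0 := Qf_pos m j (t + 2) 0
  have p1 := Qf_pos m j (t + 2) 1
  have p2 := Qf_pos m j (t + 2) 2
  have q0 := h2 0
  have q1 := h2 1
  fin_cases f
  · calc _ ≤ Qf m j (t + 2) 0 * Qf m j (t + 2) 1 := Nat.mul_le_mul_left _ q1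
      _ ≤ _ := Nat.le_mul_of_pos_right _ p2
  · calc _ ≤ Qf m j (t + 2) 1 * Qf m j (t + 2) 0 := Nat.mul_le_mul_left _ q0
      _ = Qf m j (t + 2) 0 * Qf m j (t + 2) 1 := mul_comm _ _
      _ ≤ _ := Nat.le_mul_of_pos_right _ p2
  · calc _ ≤ Qf m j (t + 2) 2 * Qf m j (t + 2) 0 := Nat.mul_le_mul_left _ q0
      _ = Qf m j (t + 2) 0 * Qf m j (t + 2) 2 := mul_comm _ _
      _ ≤ (Qf m j (t + 2) 0 * Qf m j (t + 2) 1) * Qf m j (t + 2) 2 :=
        Nat.mul_le_mul_right _ (Nat.le_mul_of_pos_right _ p1)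

theorem card_Ys_ge (m k : ℕ) (hk : k + 2 ≤ m) : ∃ j0 : ℕ, ∀ j ≥ j0, ∀ t < k,
    Real.sqrt (QQ m j t) / 16 ^ 3 ≤ ((Ys m j t).card : ℝ) := by
  obtain ⟨j0, h0⟩ := exists_Us_eq m k hk
  refine ⟨j0, fun j hj t ht => ?_⟩
  have h1 := Pool.Agent.Helper73.T5.sqrt_le_card_sY (ps_prime t) (ps_ne2 t) (es m j t)
  have h2 : Ys m j t = Pool.Agent.Helper73.T5.sY (ps t) (es m j t) := by
    unfold Ys Pool.Agent.Helper73.T5.sY
    congr 1
    funext f
    exact h0 j hj t ht f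
  rw [Fintype.card_fin] at h1
  rw [h2, div_le_iff₀ (by positivity), mul_comm]
  exact h1

/-- **the number of configurations** -/
theorem card_Cfg_ge (m k : ℕ) (hk : k + 2 ≤ m) : ∃ l0 : ℕ, ∀ l ≥ l0,
    Real.sqrt ((Nj l * LA m k (era l) : ℕ) : ℝ) / (16 ^ (3 * k) * (672 * (l : ℝ)) ^ 3) ≤
      ((Cfg m k l).card : ℝ) := by
  obtain ⟨j0, h0⟩ := card_Ys_ge m k hk
  refine ⟨max (bb j0) (bb 2 + 1), fun l hl => ?_⟩
  simp only [ge_iff_le, max_le_iff] at hl
  have hl0 : (0 : ℝ) < l := by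
    have : 0 < l := by omega
    exact_mod_cast this
  have hj : j0 ≤ era l := by
    unfold era
    exact Nat.le_findGreatest
      (le_trans Pool.Agent.Helper39.ET.bb_strictMono.le_apply hl.1) hl.1
  have e1 := card_X1_ge (l := l) (by omega)
  have e2 : ∀ t : Fin k, Real.sqrt (QQ m (era l) t) / 16 ^ 3 ≤
      ((Ys m (era l) t).card : ℝ) := fun t => h0 (era l) hj t t.2
  unfold Cfg
  rw [card_product, Fintype.card_piFinset]
  push_cast
  have e3 : (∏ t : Fin k, (Real.sqrt (QQ m (era l) t) / 16 ^ 3)) ≤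
      ∏ t : Fin k, ((Ys m (era l) t).card : ℝ) :=
    Finset.prod_le_prod (fun t _ => by positivity) (fun t _ => e2 t)
  have e4 : (∏ t : Fin k, (Real.sqrt (QQ m (era l) t) / 16 ^ 3)) =
      Real.sqrt (LA m k (era l)) / 16 ^ (3 * k) := by
    rw [Finset.prod_div_distrib, Finset.prod_const, card_univ, Fintype.card_fin, ← pow_mul]
    congr 1
    unfold LA LL
    push_cast
    rw [← Finset.prod_range (fun t => Real.sqrt ((QQ m (era l) t : ℕ) : ℝ))]
    exact (Real.sqrt_prod _ (fun t _ => Nat.cast_nonneg _)).symm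
  rw [e4] at e3
  calc Real.sqrt ((Nj l : ℝ) * (LA m k (era l) : ℝ)) / (16 ^ (3 * k) * (672 * (l : ℝ)) ^ 3)
      = (Real.sqrt (Nj l) / (672 * (l : ℝ)) ^ 3) *
          (Real.sqrt (LA m k (era l)) / 16 ^ (3 * k)) := by
        rw [Real.sqrt_mul (Nat.cast_nonneg _), div_mul_div_comm]
        congr 1
        ring
    _ ≤ _ := mul_le_mul e1 e3 (by positivity) (Nat.cast_nonneg _)

end Pool.Agent.Helper39.T5
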